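import Pool.Agent.Helper94.UP.Sheet

/-! Row A5 of the sheet `Pool.Agent.Helper94.UP.Sheet` (from A4). -/

open scoped ZeroAtInfty ContDiff NNReal
open Set Filter Topology MeasureTheory

namespace Pool.Agent.Helper94.UP

open Pool.Agent.Helper94.UF Pool.Agent.Helper94.SR

theorem stA5.{u} (h4 : ST_A4.{u}) : ST_A5.{u} := by
  intro k X _ _ _ D hk hD hA hS C hC q M hM h1 h2 f Λ hΛ hf ε hε
  rcases hΛ.eq_or_lt with h0 | hpos
  · refine ⟨fun _ => f 0, contDiff_const, fun x y => ?_, fun x => ?_⟩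
    · rw [sub_self, abs_zero, ← h0, mul_zero, zero_mul]
    · have := hf x 0
      rw [← h0, zero_mul] at this
      exact this.trans_lt hε
  · obtain ⟨g, hg1, hg2, hg3⟩ := hS q M hM h1 h2 f Λ hΛ hf (ε / 2) (half_pos hε)
    rw [one_mul] at hg2
    obtain ⟨h, e1, e2, e3⟩ := h4 hk hD hA q M hM h1 h2 g Λ ((C - 1) * Λ) (ε / 2) hΛ
      (mul_pos (by linarith) hpos) (half_pos hε) hg1 hg2
    refine ⟨h, e1, fun x y => ?_, fun x => ?_⟩
    · have := e2 x y
      have e : Λ + (C - 1) * Λ = C * Λ := by ring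
      rwa [e] at this
    · have a1 := hg3 x
      have a2 := e3 x
      have a3 := abs_sub_le (f x) (g x) (h x)
      rw [abs_sub_comm] at a2
      linarith

end Pool.Agent.Helper94.UP
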