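import Pool.Agent.Helper94.UP.Sheet2

/-! Row ASD of the sheet `Pool.Agent.Helper94.UP.Sheet2` (from EKE). -/

open scoped ContDiff NNReal
open Set Filter Topology

namespace Pool.Agent.Helper94.UP

theorem stASD.{u} (hE : ST_EKE.{u}) : ST_ASD.{u} := by
  intro X _ _ _ b hb hb01 hb0 hbs g ε hε
  have hbc : Continuous b := hb.continuous
  have hG : 0 ≤ ‖g‖ := norm_nonneg g
  have hpos1 : (0 : ℝ) < 1 + ‖g‖ := by linarith
  have hβ : (0 : ℝ) < (1 + ‖g‖)⁻¹ := inv_pos.2 hpos1
  set S : Set X := {x | (1 + ‖g‖)⁻¹ ≤ b x ∧ 1 ≤ b x * (1 + g x)} with hS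
  have hSc : IsClosed S :=
    (isClosed_le continuous_const hbc).inter
      (isClosed_le continuous_const (hbc.mul (continuous_const.add g.continuous)))
  have h0 : (0 : X) ∈ S := by
    refine ⟨?_, ?_⟩
    · rw [hb0]
      exact inv_le_one_of_one_le₀ (by linarith)
    · rw [hb0, map_zero]
      norm_num
  have : CompleteSpace S := hSc.completeSpace_coe
  have : Nonempty S := ⟨⟨0, h0⟩⟩
  -- bounds where `b` does not vanish
  have hg : ∀ x, 0 < b x → g x ≤ ‖g‖ := by
    intro x hx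
    have h1 : ‖x‖ < 1 := by
      by_contra hc
      rw [hbs x (not_lt.1 hc)] at hx
      exact lt_irrefl _ hx
    calc g x ≤ ‖g x‖ := le_trans (le_abs_self _) (by rw [Real.norm_eq_abs])
      _ ≤ ‖g‖ * ‖x‖ := g.le_opNorm x
      _ ≤ ‖g‖ * 1 := mul_le_mul_of_nonneg_left h1.le hG
      _ = ‖g‖ := mul_one _
  have hSpos : ∀ x : S, 0 < b x := fun x => hβ.trans_le x.2.1
  have hmemS : ∀ x, 0 < b x → (b x)⁻¹ - g x ≤ 1 → x ∈ S := by
    intro x hx h1
    have h2 : 1 ≤ b x * (1 + g x) := by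
      have h3 : (b x)⁻¹ ≤ 1 + g x := by linarith
      have h4 := mul_le_mul_of_nonneg_left h3 hx.le
      rwa [mul_inv_cancel₀ hx.ne'] at h4
    refine ⟨?_, h2⟩
    have h5 : 1 ≤ b x * (1 + ‖g‖) :=
      h2.trans (mul_le_mul_of_nonneg_left (by linarith [hg x hx]) hx.le)
    rw [inv_le_iff_one_le_mul₀ hpos1]
    exact h5
  have hcont : Continuous (fun x : S => (b x)⁻¹ - g x) :=
    ((hbc.comp continuous_subtype_val).inv₀ fun x => (hSpos x).ne').sub
      (g.continuous.comp continuous_subtype_val)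
  obtain ⟨v, hv⟩ := hE (fun x : S => (b x)⁻¹ - g x) hcont ⟨1 - ‖g‖, fun w => by
    have h1 := hg w (hSpos w)
    have h2 : 1 ≤ (b w)⁻¹ := (one_le_inv₀ (hSpos w)).2 (hb01 w).2
    show 1 - ‖g‖ ≤ (b w)⁻¹ - g w
    linarith⟩ ε hε
  have hv1 : (b v)⁻¹ - g v ≤ 1 := by
    have h1 := v.2.2
    have h2 := hSpos v
    have h3 : (b v)⁻¹ ≤ 1 + g v := by
      rw [inv_le_iff_one_le_mul₀ h2]
      linarith
    linarith
  have key : ∀ w, 0 < b w → (b v)⁻¹ - g v ≤ (b w)⁻¹ - g w + ε * ‖w - v‖ := by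
    intro w hw
    by_cases h1 : (b w)⁻¹ - g w ≤ 1
    · have := hv ⟨w, hmemS w hw h1⟩
      rw [Subtype.dist_eq, dist_eq_norm] at this
      exact this
    · have h2 : 0 ≤ ε * ‖w - v‖ := by positivity
      linarith
  refine ⟨v, hSpos v, ?_⟩
  have hdb : DifferentiableAt ℝ b v := (hb.differentiable one_ne_zero) v
  have hd : DifferentiableAt ℝ (fun x => (b x)⁻¹) (v : X) := hdb.inv (hSpos v).ne'
  set L : StrongDual ℝ X := fderiv ℝ (fun x => (b x)⁻¹) v with hL
  have hder : HasFDerivAt (fun x => (b x)⁻¹ - g x) (L - g) (v : X) :=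
    hd.hasFDerivAt.sub g.hasFDerivAt
  have low : ∀ w : X, -(ε * ‖w‖) ≤ (L - g) w := by
    intro w
    have hline : HasDerivAt (fun t : ℝ => (v : X) + t • w) w 0 := by
      have := ((hasDerivAt_id (0 : ℝ)).smul_const w).const_add (v : X)
      simpa using this
    have hc : HasDerivAt (fun t : ℝ => (b ((v : X) + t • w))⁻¹ - g ((v : X) + t • w))
        ((L - g) w) 0 := by
      have hder' : HasFDerivAt (fun x => (b x)⁻¹ - g x) (L - g) ((v : X) + (0 : ℝ) • w) := by
        rwa [zero_smul, add_zero]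
      exact hder'.comp_hasDerivAt (0 : ℝ) hline
    have ht := hc.tendsto_slope_zero_right
    refine ge_of_tendsto ht ?_
    have hev : ∀ᶠ t : ℝ in 𝓝[>] 0, 0 < b ((v : X) + t • w) := by
      have hcl : Continuous (fun t : ℝ => b ((v : X) + t • w)) :=
        hbc.comp (continuous_const.add (continuous_id.smul continuous_const))
      have h1 : ∀ᶠ t : ℝ in 𝓝 0, 0 < b ((v : X) + t • w) := by
        refine (hcl.tendsto 0).eventually_const_lt ?_
        rw [zero_smul, add_zero]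
        exact hSpos v
      exact h1.filter_mono nhdsWithin_le_nhds
    filter_upwards [hev, self_mem_nhdsWithin] with t h1 h2
    have h2' : 0 < t := h2
    have h3 := key _ h1
    rw [add_sub_cancel_left, norm_smul, Real.norm_eq_abs, abs_of_pos h2'] at h3
    rw [zero_add, zero_smul, add_zero, smul_eq_mul]
    have h4 : -(ε * ‖w‖) * t ≤ ((b ((v : X) + t • w))⁻¹ - g ((v : X) + t • w)) -
        ((b v)⁻¹ - g v) := by
      nlinarith
    rw [inv_mul_eq_div, le_div_iff₀ h2']
    exact h4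
  refine ContinuousLinearMap.opNorm_le_bound _ hε.le fun w => ?_
  rw [Real.norm_eq_abs, abs_le]
  refine ⟨low w, ?_⟩
  have := low (-w)
  rw [norm_neg, map_neg] at this
  linarith

end Pool.Agent.Helper94.UP
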